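import Pool.Agent.helper14.AV.Spec

set_option autoImplicit false

namespace Pool.Agent.helper14.AV

theorem PTH_count {ι V : Type} (T : SimpleGraph V) (e : ι → Sym2 V) (hr : Set.range e = T.edgeSet)
    (w : List (ι × Bool)) (s : Set (Sym2 V))
    (hs : ∀ f ∈ s, f ∈ T.edgeSet) (hw : ∀ i, e i ∈ s → i ∈ w.map Prod.fst) :
    s.ncard ≤ w.length := by
  classical
  have hsub : s ⊆ (((w.map Prod.fst).toFinset.image e : Finset (Sym2 V)) : Set (Sym2 V)) := by
    intro f hf
    have h1 := hs f hf
    rw [← hr] at h1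
    obtain ⟨i, rfl⟩ := h1
    rw [Finset.mem_coe, Finset.mem_image]
    exact ⟨i, List.mem_toFinset.2 (hw i hf), rfl⟩
  calc s.ncard ≤ (((w.map Prod.fst).toFinset.image e : Finset (Sym2 V)) : Set (Sym2 V)).ncard :=
        Set.ncard_le_ncard hsub (Finset.finite_toSet _)
    _ = ((w.map Prod.fst).toFinset.image e).card := Set.ncard_coe_finset _
    _ ≤ (w.map Prod.fst).toFinset.card := Finset.card_image_le
    _ ≤ (w.map Prod.fst).length := List.toFinset_card_le _
    _ = w.length := List.length_map _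

theorem PTH (hGLB : GLB_stmt) (hTRU : TRU_stmt) : PTH_stmt := by
  intro ι V _ _ A B T e anc τ k hS hcat
  obtain ⟨c, d, p, hp, hk⟩ := hcat
  have hT : T.IsTree := hS.1
  have hr : Set.range e = T.edgeSet := hS.2.2.1
  -- the result from a list of GLB
  have hfin : ∀ (c0 : V) (p0 : T.Walk c0 d), p0.IsPath → (∀ i, (∃ x ∈ p.support, x ∈ e i) → ∃ x ∈ p0.support, x ∈ e i) →
      ∀ i0, c0 ∈ e i0 → (∀ c' ∈ p0.support, c' ≠ c0 → c' ∉ e i0) →
      ∃ w : List (ι × Bool), k ≤ w.length ∧ (w.map Prod.fst).Nodup ∧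
        (∀ f ∈ edges w, ∃ c', c' ∈ e f.1.1 ∧ c' ∈ e f.2.1) ∧ PD A B w := by
    intro c0 p0 hp0 hmeet i0 hi0 hi1
    obtain ⟨w, h1, h2, h3, h4⟩ := hGLB ι V A B T e anc τ hS c0 d p0 hp0 (i0, true) hi0 hi1
    refine ⟨(i0, true) :: w, ?_, h1, ?_, h4⟩
    · refine hk.trans (PTH_count T e hr _ _ (fun f hf => hf.1) ?_)
      intro i hi
      exact (h2 i).2 (hmeet i hi.2)
    · intro f hf
      obtain ⟨c', _, h5, h6⟩ := h3 f hf
      exact ⟨c', h5, h6⟩
  cases p with
  | nil =>
    by_cases hex : ∃ i, c ∈ e i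
    · obtain ⟨i0, hi0⟩ := hex
      refine hfin c SimpleGraph.Walk.nil SimpleGraph.Walk.IsPath.nil (fun i h => h) i0 hi0 ?_
      intro c' hc' hne
      exfalso
      rw [SimpleGraph.Walk.support_nil, List.mem_singleton] at hc'
      exact hne hc'
    · refine ⟨[], ?_, ?_, ?_, ?_⟩
      · refine hk.trans ?_
        have h0 : {f | f ∈ T.edgeSet ∧ ∃ x ∈ (SimpleGraph.Walk.nil : T.Walk c c).support, x ∈ f} = ∅ := by
          ext f
          constructor
          · rintro ⟨h1, x, h2, h3⟩
            exfalso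
            rw [SimpleGraph.Walk.support_nil, List.mem_singleton] at h2
            rw [← hr] at h1
            obtain ⟨i, rfl⟩ := h1
            rw [h2] at h3
            exact hex ⟨i, h3⟩
          · intro h
            exact absurd h (Set.notMem_empty f)
        rw [h0, Set.ncard_empty]
        exact Nat.zero_le _
      · exact List.nodup_nil
      · intro f hf
        exact absurd hf (List.not_mem_nil)
      · unfold PD edges
        exact List.Pairwise.nil
  | @cons _ c1 _ h p' =>
    have hp' : p'.IsPath := hp.of_cons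
    have hc : c ∉ p'.support := ((SimpleGraph.Walk.cons_isPath_iff h p').1 hp).2
    have hcc : c ≠ c1 := h.ne
    by_cases hex : ∃ i, c ∈ e i ∧ c1 ∉ e i
    · obtain ⟨i0, hi0, hi1⟩ := hex
      refine hfin c (SimpleGraph.Walk.cons h p') hp (fun i h => h) i0 hi0 ?_
      intro c' hc' hne hmem
      rw [SimpleGraph.Walk.support_cons, List.mem_cons] at hc'
      rcases hc' with h1 | h1
      · exact hne h1
      · have h2 : e i0 = s(c, c') := ((Sym2.mem_and_mem_iff (Ne.symm hne)).1 ⟨hi0, hmem⟩)
        have h3 : T.Adj c c' := by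
          rw [← SimpleGraph.mem_edgeSet, ← h2, ← hr]
          exact Set.mem_range_self i0
        have h4 := hTRU V T c c1 d h p' hT.isAcyclic hp c' h1 h3
        rw [h4] at hmem
        exact hi1 hmem
    · push Not at hex
      have ht : ∃ t, e t = s(c, c1) := by
        have : s(c, c1) ∈ Set.range e := by
          rw [hr, SimpleGraph.mem_edgeSet]
          exact h
        exact this
      obtain ⟨t, ht⟩ := ht
      refine hfin c1 p' hp' ?_ t ?_ ?_
      · rintro i ⟨x, hx, hxi⟩
        rw [SimpleGraph.Walk.support_cons, List.mem_cons] at hx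
        rcases hx with h1 | h1
        · rw [h1] at hxi
          exact ⟨c1, p'.start_mem_support, hex i hxi⟩
        · exact ⟨x, h1, hxi⟩
      · rw [ht]
        exact Sym2.mem_mk_right c c1
      · intro c' hc' hne hmem
        rw [ht, Sym2.mem_iff] at hmem
        rcases hmem with h1 | h1
        · rw [h1] at hc'
          exact hc hc'
        · exact hne h1

end Pool.Agent.helper14.AV
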